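import Pool.Agent.X333.MV.Vojta

/-!
The exceptional set, for nested sums of few high powers of monomials.
-/

set_option autoImplicit false

open FF Filter MvPolynomial Pool.Agent.W603.LV Pool.Agent.W603.PV Pool.Agent.W602.GT
  Pool.Agent.W603.GY Pool.Agent.W603.GX Pool.Agent.W603.GW Pool.Agent.W603.GR
  Pool.Agent.W603.CZ Pool.Agent.TH710.NU Pool.Agent.X333.MC

namespace Pool.Agent.X333.MV

variable {k F : Type} [Field k] [Field F] {n : ℕ} {ι κ : Type}

/-- the orbit of the generic point of a component is in the component -/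
theorem orbit_of_in {Fs : ι → MvPolynomial (Fin (n + 1)) F}
    {Q : κ → MvPolynomial (Fin (n + 1)) F} [CharZero F] (hF : ∀ i, ∃ d, (Fs i).IsHomogeneous d)
    {p : Ideal (MvPolynomial (Fin (n + 1)) F)}
    (hmin : p ∈ (Ideal.span (Set.range Fs)).minimalPrimes) (h : HasOrbitIn p Fs Q) :
    HasOrbit p Q := by
  classical
  obtain ⟨K, iK, iA, y, b, c, hmem, hgen, hyb, hl⟩ := h
  refine ⟨K, iK, iA, y, b, c, hmem, hgen, hyb, fun t ht => ⟨fun H hH => ?_, (hl t ht).2⟩⟩
  have hcK : CharZero K := charZero_of_injective_algebraMap (algebraMap F K).injective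
  have hinf : Infinite K := inferInstance
  -- the shifted orbit
  obtain ⟨m, hm⟩ : ∃ m : ℕ, ∀ l, 0 ≤ b l + m := by
    refine ⟨(∑ l, |b l|).toNat, fun l => ?_⟩
    have h1 : |b l| ≤ ∑ l, |b l| := Finset.single_le_sum (f := fun l => |b l|)
      (fun _ _ => abs_nonneg _) (Finset.mem_univ l)
    have h2 : (0 : ℤ) ≤ ∑ l, |b l| := (abs_nonneg _).trans h1
    rw [Int.toNat_of_nonneg h2]
    have h3 := neg_abs_le (b l)
    omega
  let e : Fin (n + 1) → ℕ := fun l => (b l + m).toNat
  have he : ∀ l, (e l : ℤ) = b l + m := fun l => Int.toNat_of_nonneg (hm l)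
  let φ : MvPolynomial (Fin (n + 1)) F →ₐ[F] Polynomial K :=
    aeval fun l => Polynomial.C (y l) * Polynomial.X ^ e l
  have hev : ∀ (t : K) (H : MvPolynomial (Fin (n + 1)) F),
      (φ H).eval t = aeval (fun l => t ^ e l * y l) H := by
    intro t H
    induction H using MvPolynomial.induction_on with
    | C a =>
      simp only [φ, aeval_C]
      have h1 : algebraMap F (Polynomial K) a = Polynomial.C (algebraMap F K a) := rfl
      rw [h1, Polynomial.eval_C]
    | add p q hp hq => rw [map_add, Polynomial.eval_add, map_add, hp, hq]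
    | mul_X p s hp =>
      rw [map_mul, Polynomial.eval_mul, map_mul, hp]
      congr 1
      simp only [φ, aeval_X, Polynomial.eval_mul, Polynomial.eval_C, Polynomial.eval_pow,
        Polynomial.eval_X]
      ring
  have hsc : ∀ (t : K), t ≠ 0 → ∀ (d : ℕ) (G : MvPolynomial (Fin (n + 1)) F),
      G.IsHomogeneous d → aeval (fun l => t ^ e l * y l) G =
        (t ^ m) ^ d * aeval (fun l => t ^ b l * y l) G := by
    intro t ht d G hG
    have h1 : (fun l => t ^ e l * y l) = fun l => t ^ m * (t ^ b l * y l) := by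
      funext l
      have h2 : t ^ e l = t ^ m * t ^ b l := by
        rw [← zpow_natCast, he, ← zpow_natCast, ← zpow_add₀ ht, add_comm]
      rw [h2, mul_assoc]
    rw [h1]
    exact val_smul hG _ _
  have hspan : Ideal.span (Set.range Fs) ≤ RingHom.ker φ := by
    rw [Ideal.span_le]
    rintro _ ⟨i, rfl⟩
    refine RingHom.mem_ker.2 ?_
    obtain ⟨d, hd⟩ := hF i
    have h1 : Polynomial.X * φ (Fs i) = 0 := by
      apply Polynomial.funext
      intro t
      rw [Polynomial.eval_zero, Polynomial.eval_mul, Polynomial.eval_X]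
      by_cases ht : t = 0
      · rw [ht, zero_mul]
      · rw [hev, hsc t ht d _ hd, (hl t ht).1 i, mul_zero, mul_zero]
    exact (mul_eq_zero.1 h1).resolve_left Polynomial.X_ne_zero
  have hker : (RingHom.ker φ).IsPrime := RingHom.ker_isPrime _
  obtain ⟨p', hp', hle⟩ := Ideal.exists_minimalPrimes_le hspan
  choose e' he' using hF
  have hhom := isHomog_of_min Fs he' hp'
  have hpp : p' ≤ p := by
    intro H hH
    rw [← sum_homogeneousComponent H]
    refine sum_mem fun d _ => ?_
    by_contra hcon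
    apply hgen d _ (homogeneousComponent_isHomogeneous d H) hcon
    have h1 := hle (hhom H hH d)
    have h2 := hev 1 (homogeneousComponent d H)
    rw [RingHom.mem_ker.1 h1, Polynomial.eval_zero] at h2
    simp only [one_pow, one_mul] at h2
    exact h2.symm
  have hpp' : p ≤ p' := hmin.2 hp'.1 hpp
  have hphom := isHomog_of_min Fs he' hmin
  -- the homogeneous components vanish
  rw [← sum_homogeneousComponent H, map_sum]
  refine Finset.sum_eq_zero fun d _ => ?_
  have h1 := hev t (homogeneousComponent d H)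
  rw [RingHom.mem_ker.1 (hle (hpp' (hphom H hH d))), Polynomial.eval_zero,
    hsc t ht d _ (homogeneousComponent_isHomogeneous d H)] at h1
  exact (mul_eq_zero.1 h1.symm).resolve_left (pow_ne_zero _ (pow_ne_zero _ ht))

/-- **Vojta's height inequality** with the exceptional set -/
theorem vojta_exc [Algebra k F] [IsAlgClosed k] [CharZero k] [IsFF k F] [Finite κ]
    (Fs : ι → MvPolynomial (Fin (n + 1)) F) (hF : ∀ i, IsForm (Fs i) ∧ MTower (Fs i))
    (Q : κ → MvPolynomial (Fin (n + 1)) F) (q : κ → ℕ) (hQ : ∀ j, MTowerLog (Q j) (q j)) :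
    ∃ J : Ideal (MvPolynomial (Fin (n + 1)) F), IsHomog J ∧ Ideal.span (Set.range Fs) ≤ J ∧
      (∀ p ∈ J.minimalPrimes, (∃ j, X j ∉ p) → (∀ j, Q j ∉ p) → HasOrbitIn p Fs Q) ∧
      ∃ (B C : ℕ), ∀ (L : Type) [Field L] [Algebra k L] [Algebra F L]
      [IsScalarTower k F L] [FiniteDimensional F L] (f : Fin (n + 1) → L),
      (∀ i, aeval f (Fs i) = 0) → (∀ j, aeval f (Q j) ≠ 0) → (∃ H ∈ J, aeval f H ≠ 0) →
      (∃ j, f j ≠ 0) →
        pht k f ≤ B * (canDeg k L + (meetsAny (k := k) Q q f).ncard) +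
          C * Module.finrank F L := by
  classical
  obtain ⟨tt, htt⟩ := IsFF.exists_transcendental (k := k) (K := F)
  obtain ⟨h0, hh0⟩ : ∃ h0 : ℕ, (h0 : ℤ) = hgt k tt :=
    ⟨(hgt k tt).toNat, Int.toNat_of_nonneg (hgt_nonneg tt)⟩
  -- the genus term is bounded below
  have hcd : ∀ (L : Type) [Field L] [Algebra k L] [Algebra F L] [IsScalarTower k F L]
      [FiniteDimensional F L], 0 ≤ canDeg k L + 2 * h0 * Module.finrank F L := by
    intro L _ _ _ _ _
    have hL : IsFF k L := isFF_of_finite (F := F)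
    have h1 := canDeg_ge (k := k) (K := L) (t := algebraMap F L tt)
      ((transcendental_algebraMap_iff (algebraMap F L).injective).2 htt)
    rw [hgt_algebraMap (k := k), ← hh0] at h1
    linarith
  choose e he using fun i => (hF i).1
  have hJ0 : IsHomog (Ideal.span (Set.range Fs)) := homog_span he
  let Ok : Ideal (MvPolynomial (Fin (n + 1)) F) → Prop := fun J =>
    ∃ (B C : ℕ), ∀ (L : Type) [Field L] [Algebra k L] [Algebra F L]
      [IsScalarTower k F L] [FiniteDimensional F L] (f : Fin (n + 1) → L),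
      (∀ i, aeval f (Fs i) = 0) → (∀ j, aeval f (Q j) ≠ 0) → (∃ H ∈ J, aeval f H ≠ 0) →
      (∃ j, f j ≠ 0) →
        pht k f ≤ B * (canDeg k L + (meetsAny (k := k) Q q f).ncard) +
          C * Module.finrank F L
  obtain ⟨J, h1, h2, h3, h4⟩ := exists_exc hJ0 Ok ⟨0, 0, by
      intro L _ _ _ _ _ f hf _ hH _
      obtain ⟨H, hH, hne⟩ := hH
      exfalso
      apply hne
      have h1 : Ideal.span (Set.range Fs) ≤
          RingHom.ker (aeval f : MvPolynomial (Fin (n + 1)) F →ₐ[F] L) := by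
        rw [Ideal.span_le]
        rintro _ ⟨i, rfl⟩
        exact RingHom.mem_ker.2 (hf i)
      exact RingHom.mem_ker.1 (h1 hH)⟩
    (fun p => (∃ j, X j ∉ p) → (∀ j, Q j ∉ p) → HasOrbitIn p Fs Q) (by
      intro J hJ hJ0J hOk p hp hP
      push Not at hP
      obtain ⟨hx, hQp, hline⟩ := hP
      have hpp : p.IsPrime := hp.1.1
      obtain ⟨d, G, hG, hGp, -, B, C, hBC⟩ := vojta_gen (k := k) Fs hF Q q hQ p
        (fun i => hp.1.2 (hJ0J (Ideal.subset_span ⟨i, rfl⟩))) hx hQp hline
      refine ⟨d, G, hG, hGp, fun e H hH hHp hHo => ?_⟩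
      obtain ⟨B', C', hBC'⟩ := hOk
      refine ⟨B + B', (C + 2 * h0 * B) + (C' + 2 * h0 * B'), ?_⟩
      intro L i1 i2 i3 i4 i5 f hf hQf hex hfne
      have hc := hcd L
      have hc' : (0 : ℤ) ≤ (meetsAny (k := k) Q q f).ncard := by positivity
      have hc'' : (0 : ℤ) ≤ Module.finrank F L := by positivity
      have hcc : (0 : ℤ) ≤ C := by positivity
      have hcc' : (0 : ℤ) ≤ C' := by positivity
      have hb : (0 : ℤ) ≤ B := by positivity
      have hb' : (0 : ℤ) ≤ B' := by positivity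
      have key1 := mul_nonneg hb (add_nonneg hc hc')
      have key2 := mul_nonneg hb' (add_nonneg hc hc')
      have key3 := mul_nonneg hcc hc''
      have key4 := mul_nonneg hcc' hc''
      have hh : (0 : ℤ) ≤ h0 := by positivity
      have key5 := mul_nonneg (mul_nonneg hh hb) hc''
      have key6 := mul_nonneg (mul_nonneg hh hb') hc''
      push_cast
      by_cases hJf : ∃ H ∈ J, aeval f H ≠ 0
      · have h5 := hBC' L f hf hQf hJf hfne
        nlinarith
      · push Not at hJf
        obtain ⟨A, hA, hAne⟩ := hex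
        obtain ⟨a, ha, b, hb0, rfl⟩ := Submodule.mem_sup.1 hA
        obtain ⟨c, rfl⟩ := Ideal.mem_span_singleton'.1 hb0
        rw [map_add, hJf a ha, zero_add, map_mul, map_mul] at hAne
        have h6 : aeval f G ≠ 0 := left_ne_zero_of_mul (right_ne_zero_of_mul hAne)
        have h7 : aeval f H ≠ 0 := right_ne_zero_of_mul (right_ne_zero_of_mul hAne)
        have h5 := hBC L f (mem_comp hHo hJf h7) h6
        nlinarith)
  exact ⟨J, h1, h2, h4, h3⟩

/-- **Vojta's height inequality** with the exceptional set and the components -/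
theorem vojta_pairs [Algebra k F] [IsAlgClosed k] [CharZero k] [IsFF k F] [Finite κ]
    (Fs : ι → MvPolynomial (Fin (n + 1)) F) (hF : ∀ i, IsForm (Fs i) ∧ MTower (Fs i))
    (Q : κ → MvPolynomial (Fin (n + 1)) F) (q : κ → ℕ) (hQ : ∀ j, MTowerLog (Q j) (q j)) :
    ∃ J : Ideal (MvPolynomial (Fin (n + 1)) F),
      (∀ H ∈ J, ∀ d, homogeneousComponent d H ∈ J) ∧ (∀ i, Fs i ∈ J) ∧
      (∀ p ∈ J.minimalPrimes, (∃ j, X j ∉ p) → (∀ j, Q j ∉ p) → HasOrbitIn p Fs Q) ∧
      (∀ p ∈ (Ideal.span (Set.range Fs)).minimalPrimes, (∃ j, X j ∉ p) → (∀ j, Q j ∉ p) →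
        HasOrbit p Q ∨ ∃ G ∈ J, G ∉ p) ∧
      ∃ (B C : ℕ), ∀ (L : Type) [Field L] [Algebra k L] [Algebra F L]
        [IsScalarTower k F L] [FiniteDimensional F L] (f : Fin (n + 1) → L),
        (∃ j, f j ≠ 0) → (∀ i, aeval f (Fs i) = 0) → (∀ j, aeval f (Q j) ≠ 0) →
        (∃ G ∈ J, aeval f G ≠ 0) →
          pht k f ≤ B * (canDeg k L + (meetsAny (k := k) Q q f).ncard) +
            C * Module.finrank F L := by
  obtain ⟨J, h1, h2, h3, B, C, h4⟩ := vojta_exc (k := k) Fs hF Q q hQ
  refine ⟨J, h1, fun i => h2 (Ideal.subset_span ⟨i, rfl⟩), h3, fun p hp hx hQp => ?_, B, C,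
    fun L _ _ _ _ _ f hf hfF hfQ hfJ => h4 L f hfF hfQ hfJ hf⟩
  have hcF : CharZero F := charZero_of_injective_algebraMap (algebraMap k F).injective
  by_cases hJ : ∃ G ∈ J, G ∉ p
  · exact Or.inr hJ
  · push Not at hJ
    have hpJ : p ∈ J.minimalPrimes :=
      ⟨⟨hp.1.1, hJ⟩, fun p' hp' hle => hp.2 ⟨hp'.1, h2.trans hp'.2⟩ hle⟩
    exact Or.inl (orbit_of_in (fun i => (hF i).1) hp (h3 p hpJ hx hQp))

end Pool.Agent.X333.MV
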