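import Pool.Agent.X333.MC.Core
import Pool.Agent.TH710.NU.Exc

/-!
Vojta's height inequality over function fields for pairs given by nested sums of few high powers of
monomials.
-/

set_option autoImplicit false

open FF Filter MvPolynomial Pool.Agent.W603.LV Pool.Agent.W603.PV Pool.Agent.W602.GT
  Pool.Agent.W603.GY Pool.Agent.W603.GX Pool.Agent.W603.GW Pool.Agent.W603.GR
  Pool.Agent.W603.CZ Pool.Agent.TH710.NU Pool.Agent.TH710.ND Pool.Agent.X333.MC

namespace Pool.Agent.X333.MV

variable {F : Type} [Field F] {n : ℕ} {ι κ : Type}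

/-- The form `Q` of degree `q` is a nested sum of few high powers of monomials, with the slightly
stronger condition `s ^ 2 ≤ e` for the number `s` of the outermost summands; the product of the
exponents of all levels divides `q` (this is automatic if the terms are forms of degree `q`). -/
def MTowerLog (Q : MvPolynomial (Fin (n + 1)) F) (q : ℕ) : Prop :=
  Q.IsHomogeneous q ∧ ∃ (s e : ℕ) (L : List (ℕ × ℕ)) (c : Fin s → F)
    (g : Fin s → MvPolynomial (Fin (n + 1)) F),
    0 < e ∧ s ^ 2 ≤ e ∧ GoodL L ∧ (∀ i, GateL IsMono L (g i)) ∧ Q = ∑ i, C (c i) * g i ^ e ∧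
      e * (L.map Prod.snd).prod ∣ q

section orbit

variable {K : Type} [Field K] [Algebra F K] {E : IntermediateField F K} {Dv : ℕ → K → Prop}

theorem dv_of_dvd (h : DSys E Dv) {e q : ℕ} (heq : e ∣ q) {z : K} (hz : Dv q z) : Dv e z := by
  obtain ⟨m, rfl⟩ := heq
  exact h.dvd e m z hz

/-- **A one-parameter group through a point which is not small, with the divisors.** -/
theorem orbit_of_pair [Infinite K] (h : DSys E Dv) {Fs : ι → MvPolynomial (Fin (n + 1)) F}
    {Q : κ → MvPolynomial (Fin (n + 1)) F} {q : κ → ℕ}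
    (hF : ∀ e, MTower (Fs e)) (hFf : ∀ e, IsForm (Fs e)) (hQ : ∀ j, MTowerLog (Q j) (q j))
    {y : Fin (n + 1) → K} (hmem : ∀ e, val y (Fs e) = 0) (hoff : ∀ j, val y (Q j) ≠ 0)
    (hQD : ∀ j, Dv (q j) (val y (Q j))) {i i' : Fin (n + 1)} (hi : y i ≠ 0) (hi' : y i' ≠ 0)
    (hii : y i / y i' ∉ E) :
    ∃ (b : Fin (n + 1) → ℤ) (c : κ → ℤ), b i ≠ b i' ∧ ∀ t : K, t ≠ 0 →
      (∀ e, val (fun j => t ^ b j * y j) (Fs e) = 0) ∧
      ∀ j, val (fun l => t ^ b l * y l) (Q j) = t ^ c j * val y (Q j) := by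
  classical
  -- the normalised point
  let z : Fin (n + 1) → K := fun j => (y i')⁻¹ * y j
  have hz0 : ∀ j, z j ≠ 0 ↔ y j ≠ 0 := fun j =>
    ⟨fun h => right_ne_zero_of_mul h, fun h => mul_ne_zero (inv_ne_zero hi') h⟩
  let z' : Fin (n + 1) → K := fun j => if y j = 0 then 1 else z j
  have hz'0 : ∀ j, z' j ≠ 0 := by
    intro j
    by_cases hj : y j = 0
    · simp only [z', if_pos hj]
      exact one_ne_zero
    · simp only [z', if_neg hj]
      exact (hz0 j).2 hj
  have hzi : z' i ∉ E := by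
    simp only [z', if_neg hi, z]
    rwa [mul_comm, ← div_eq_mul_inv]
  obtain ⟨b, hbi, hb⟩ := exists_weight h.root z' hz'0 hzi
  have hbi' : b i' = 0 := by
    have h1 := hb (Pi.single i' 1) (by
      rw [Finset.prod_eq_single i']
      · simp only [z', if_neg hi', z, Pi.single_eq_same, zpow_one]
        rw [inv_mul_cancel₀ hi']
        exact one_mem _
      · intro j _ hj
        rw [Pi.single_eq_of_ne hj, zpow_zero]
      · intro h2
        exact absurd (Finset.mem_univ _) h2)
    rw [Finset.sum_eq_single i'] at h1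
    · simpa using h1
    · intro j _ hj
      rw [Pi.single_eq_of_ne hj, zero_mul]
    · intro h2
      exact absurd (Finset.mem_univ _) h2
  have hrel : ∀ α β : Fin (n + 1) →₀ ℕ, ∏ j, z j ^ α j ≠ 0 → ∏ j, z j ^ β j ≠ 0 →
      (∏ j, z j ^ α j) / ∏ j, z j ^ β j ∈ E →
        ∑ j, (α j : ℤ) * b j = ∑ j, (β j : ℤ) * b j := by
    intro α β hα hβ hαβ
    have hsup : ∀ γ : Fin (n + 1) →₀ ℕ, ∏ j, z j ^ γ j ≠ 0 → ∀ j, y j = 0 → γ j = 0 := by
      intro γ hγ j hj
      by_contra hne
      apply hγ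
      apply Finset.prod_eq_zero (Finset.mem_univ j)
      simp only [z, hj, mul_zero]
      exact zero_pow hne
    have hpr : ∀ γ : Fin (n + 1) →₀ ℕ, ∏ j, z j ^ γ j ≠ 0 →
        ∏ j, z j ^ γ j = ∏ j, z' j ^ (γ j : ℤ) := by
      intro γ hγ
      refine Finset.prod_congr rfl fun j _ => ?_
      by_cases hj : y j = 0
      · rw [hsup γ hγ j hj]
        simp
      · simp only [z', if_neg hj, zpow_natCast]
    have h2 := hb (fun j => (α j : ℤ) - (β j : ℤ)) (by
      have h3 : ∏ j, z' j ^ ((α j : ℤ) - (β j : ℤ)) =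
          (∏ j, z j ^ α j) / ∏ j, z j ^ β j := by
        rw [hpr α hα, hpr β hβ, ← Finset.prod_div_distrib]
        exact Finset.prod_congr rfl fun j _ => zpow_sub₀ (hz'0 j) _ _
      rw [h3]
      exact hαβ)
    simp only [sub_mul, Finset.sum_sub_distrib] at h2
    exact sub_eq_zero.1 h2
  -- the relations between the leaves
  have hEnv : ∀ t : K, t ≠ 0 → Env (M := K) E IsMono z
      (fun j => t ^ b j * z j) := by
    intro t ht
    refine ⟨?_, ?_⟩
    · rintro p ⟨α, a, rfl⟩ h
      rw [aeval_mono] at h ⊢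
      rw [torus_mono z b ht, mul_left_comm, h, mul_zero]
    · rintro p q ⟨α, a, rfl⟩ ⟨β, c, rfl⟩ hp hq hW
      rw [aeval_mono] at hp hq
      rw [aeval_mono, aeval_mono] at hW
      have hp1 := left_ne_zero_of_mul hp
      have hp2 := right_ne_zero_of_mul hp
      have hq1 := left_ne_zero_of_mul hq
      have hq2 := right_ne_zero_of_mul hq
      have h5 := hrel α β hp2 hq2 (by
        have h6 : (∏ j, z j ^ α j) / ∏ j, z j ^ β j =
            (algebraMap F K a * ∏ j, z j ^ α j) / (algebraMap F K c * ∏ j, z j ^ β j) *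
              algebraMap F K c * (algebraMap F K a)⁻¹ := by
          field_simp
        rw [h6]
        exact mul_mem (mul_mem hW (E.algebraMap_mem _)) (inv_mem (E.algebraMap_mem _)))
      rw [aeval_mono, aeval_mono, aeval_mono, aeval_mono, torus_mono z b ht,
        torus_mono z b ht, h5]
      change algebraMap F K a * (t ^ (∑ j, (β j : ℤ) * b j) * ∏ j, z j ^ α j) *
        (algebraMap F K c * ∏ j, z j ^ β j) = algebraMap F K a * (∏ j, z j ^ α j) *
        (algebraMap F K c * (t ^ (∑ j, (β j : ℤ) * b j) * ∏ j, z j ^ β j))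
      ring
  have hzy : ∀ (G : MvPolynomial (Fin (n + 1)) F) (d : ℕ), G.IsHomogeneous d →
      val z G = (y i')⁻¹ ^ d * val y G := fun G d hd => val_smul hd _ _
  have hzyt : ∀ (t : K) (G : MvPolynomial (Fin (n + 1)) F) (d : ℕ), G.IsHomogeneous d →
      val (fun j => t ^ b j * z j) G = (y i')⁻¹ ^ d * val (fun j => t ^ b j * y j) G := by
    intro t G d hd
    rw [← val_smul hd]
    congr 1
    funext j
    simp only [z]
    ring
  -- the leaves of the divisors
  have hleaf : ∀ j, ∃ cj : ℤ, ∀ t : K, t ≠ 0 →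
      val (fun l => t ^ b l * z l) (Q j) = t ^ cj * val z (Q j) := by
    intro j
    obtain ⟨hhom, s, e, L, c, g, he0, hse, hL, hg, hQe, hqe⟩ := hQ j
    have hgate : GateL IsMono ((s, e) :: L) (Q j) := ⟨c, g, hg, hQe⟩
    have hcond : ∀ ke ∈ (s, e) :: L, 0 < ke.2 ∧ ke.1 ^ 2 ≤ ke.2 := by
      intro ke hke
      rcases List.mem_cons.1 hke with rfl | hke
      · exact ⟨he0, hse⟩
      · exact hL.wk ke hke
    have hne : aeval z (Q j) ≠ 0 := by
      have h1 := hzy (Q j) (q j) hhom
      unfold Pool.Agent.W602.GT.val at h1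
      rw [h1]
      exact mul_ne_zero (pow_ne_zero _ (inv_ne_zero hi')) (hoff j)
    have hord : Dv (((s, e) :: L).map Prod.snd).prod (aeval z (Q j)) := by
      rw [List.map_cons, List.prod_cons]
      refine dv_of_dvd h hqe ?_
      have h1 := hzy (Q j) (q j) hhom
      unfold Pool.Agent.W602.GT.val at h1
      rw [h1]
      exact h.mul _ _ _ (h.pow _ _) (hQD j)
    obtain ⟨l, ⟨α, a, rfl⟩, hl0, hlW⟩ := exists_leaf h ((s, e) :: L) hcond (Q j) hgate hne hord
    refine ⟨(((s, e) :: L).map Prod.snd).prod * ∑ j, (α j : ℤ) * b j, fun t ht => ?_⟩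
    have h1 := gate_bd h (hEnv t ht) ⟨α, a, rfl⟩ hl0 ((s, e) :: L) hcond
      (by rw [List.tail_cons]; exact hL) (Q j) hgate hne hord hlW
    have h5 : aeval (fun l => t ^ b l * z l) (monomial α a) =
        t ^ (∑ j, (α j : ℤ) * b j) * aeval z (monomial α a) := by
      rw [aeval_mono, aeval_mono, torus_mono z b ht]
      ring
    have h3 : (t ^ (∑ j, (α j : ℤ) * b j)) ^ (((s, e) :: L).map Prod.snd).prod =
        t ^ (((((s, e) :: L).map Prod.snd).prod : ℤ) * ∑ j, (α j : ℤ) * b j) := by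
      rw [← zpow_natCast, ← zpow_mul, mul_comm]
    unfold Pool.Agent.W602.GT.val
    rw [h1, h5, mul_pow, h3]
    have h4 := pow_ne_zero (((s, e) :: L).map Prod.snd).prod hl0
    change aeval z (Q j) / aeval z (monomial α a) ^ (((s, e) :: L).map Prod.snd).prod *
      (_ * aeval z (monomial α a) ^ (((s, e) :: L).map Prod.snd).prod) = _
    generalize aeval z (monomial α a) ^ (((s, e) :: L).map Prod.snd).prod = A at h4 ⊢
    field_simp
  choose cj hcj using hleaf
  refine ⟨b, cj, by rw [hbi']; exact hbi, fun t ht => ⟨fun e => ?_, fun j => ?_⟩⟩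
  · obtain ⟨s, d, L, c, g, hd0, hsd, hL, hg, hFe⟩ := hF e
    obtain ⟨dd, hdd⟩ := hFf e
    obtain ⟨ihz, ihp⟩ := gate_rel h (hEnv t ht) L hL
    have h1 := pow_step h (x := fun j => t ^ b j * z j) hd0 (fun i => algebraMap F K (c i))
      (fun i => E.algebraMap_mem _) g (by
        have h2 := hzy (Fs e) dd hdd
        rw [hmem e, mul_zero] at h2
        unfold Pool.Agent.W602.GT.val at h2
        rw [hFe, aeval_sum_pow] at h2
        exact h2) (by rw [Fintype.card_fin]; exact hsd) (fun j hj => ihz (g j) (hg j) hj)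
      (fun i j hi hj hl => ihp (g i) (g j) (hg i) (hg j) hi hj hl)
    have h3 : val (fun j => t ^ b j * z j) (Fs e) = 0 := by
      unfold Pool.Agent.W602.GT.val
      rw [hFe, aeval_sum_pow]
      exact h1
    rw [hzyt t (Fs e) dd hdd] at h3
    exact (mul_eq_zero.1 h3).resolve_left (pow_ne_zero _ (inv_ne_zero hi'))
  · have h1 := hcj j t ht
    have hhom := (hQ j).1
    rw [hzyt t (Q j) (q j) hhom, hzy (Q j) (q j) hhom] at h1
    have h2 : (y i')⁻¹ ^ q j ≠ 0 := pow_ne_zero _ (inv_ne_zero hi')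
    apply mul_left_cancel₀ h2
    rw [h1]
    ring

end orbit

end Pool.Agent.X333.MV
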