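import Pool.Agent.X333.MV.Pair
import Pool.Agent.TH710.NU.Exc

/-!
Vojta's height inequality over function fields for nested sums of few high powers of monomials.
-/

set_option autoImplicit false

open FF Filter MvPolynomial Pool.Agent.W603.LV Pool.Agent.W603.PV Pool.Agent.W602.GT
  Pool.Agent.W603.GY Pool.Agent.W603.GX Pool.Agent.W603.GW Pool.Agent.W603.GR
  Pool.Agent.W603.CZ Pool.Agent.TH710.NU Pool.Agent.X333.MC

namespace Pool.Agent.X333.MV

variable {k F : Type} [Field k] [Field F] {n : ℕ} {ι κ : Type}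

/-- Let `X` be the closed subset `Fs i = 0` of projective `n`-space over `F`, and `Y` its closed
subvariety with the homogeneous prime ideal `p`. Over some extension field `K` of `F` there are a
generic point `y` of `Y` and a one-parameter group of diagonal matrices `t ↦ diag (t ^ b l)` such
that the orbit of `y` is not a point, lies in `X`, and is disjoint from the divisors `Q j = 0`:
`Q j` takes the value `t ^ c j * Q_j(y)` on it. -/
def HasOrbitIn (p : Ideal (MvPolynomial (Fin (n + 1)) F)) (Fs : ι → MvPolynomial (Fin (n + 1)) F)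
    (Q : κ → MvPolynomial (Fin (n + 1)) F) : Prop :=
  ∃ (K : Type) (_ : Field K) (_ : Algebra F K) (y : Fin (n + 1) → K) (b : Fin (n + 1) → ℤ)
    (c : κ → ℤ),
    (∀ H ∈ p, aeval y H = 0) ∧ (∀ d H, H.IsHomogeneous d → H ∉ p → aeval y H ≠ 0) ∧
    (∃ i i', y i ≠ 0 ∧ y i' ≠ 0 ∧ b i ≠ b i') ∧
    ∀ t : K, t ≠ 0 → (∀ i, aeval (fun l => t ^ b l * y l) (Fs i) = 0) ∧
      ∀ j, aeval (fun l => t ^ b l * y l) (Q j) = t ^ c j * aeval y (Q j)

/-- The same, with the orbit of the generic point `y` of `Y` contained in `Y`. -/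
def HasOrbit (p : Ideal (MvPolynomial (Fin (n + 1)) F))
    (Q : κ → MvPolynomial (Fin (n + 1)) F) : Prop :=
  ∃ (K : Type) (_ : Field K) (_ : Algebra F K) (y : Fin (n + 1) → K) (b : Fin (n + 1) → ℤ)
    (c : κ → ℤ),
    (∀ H ∈ p, aeval y H = 0) ∧ (∀ d H, H.IsHomogeneous d → H ∉ p → aeval y H ≠ 0) ∧
    (∃ i i', y i ≠ 0 ∧ y i' ≠ 0 ∧ b i ≠ b i') ∧
    ∀ t : K, t ≠ 0 → (∀ H ∈ p, aeval (fun l => t ^ b l * y l) H = 0) ∧
      ∀ j, aeval (fun l => t ^ b l * y l) (Q j) = t ^ c j * aeval y (Q j)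

/-- **Vojta's height inequality** -/
theorem vojta_gen [Algebra k F] [IsAlgClosed k] [CharZero k] [IsFF k F] [Finite κ]
    (Fs : ι → MvPolynomial (Fin (n + 1)) F) (hF : ∀ i, IsForm (Fs i) ∧ MTower (Fs i))
    (Q : κ → MvPolynomial (Fin (n + 1)) F) (q : κ → ℕ) (hQ : ∀ j, MTowerLog (Q j) (q j))
    (p : Ideal (MvPolynomial (Fin (n + 1)) F)) [hpp : p.IsPrime]
    (hFp : ∀ i, Fs i ∈ p) (hx : ∃ j, X j ∉ p)
    (hQp : ∀ j, Q j ∉ p) (hline : ¬ HasOrbitIn p Fs Q) :
    ∃ (d : ℕ) (G : MvPolynomial (Fin (n + 1)) F), G.IsHomogeneous d ∧ G ∉ p ∧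
      (∀ j, Q j ∣ G) ∧ ∃ (B C : ℕ), ∀ (L : Type) [Field L] [Algebra k L] [Algebra F L]
      [IsScalarTower k F L] [FiniteDimensional F L] (f : Fin (n + 1) → L),
      (∀ H ∈ p, aeval f H = 0) → aeval f G ≠ 0 →
        pht k f ≤ B * (canDeg k L + (meetsAny (k := k) Q q f).ncard) +
          C * Module.finrank F L := by
  classical
  have := Fintype.ofFinite κ
  by_contra hcon
  push Not at hcon
  obtain ⟨j0, hj0⟩ := hx
  have hQhom : ∀ j, (Q j).IsHomogeneous (q j) := fun j => (hQ j).1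
  obtain ⟨tt, htt⟩ := IsFF.exists_transcendental (k := k) (K := F)
  obtain ⟨h0, hh0⟩ : ∃ h0 : ℕ, (h0 : ℤ) = hgt k tt :=
    ⟨(hgt k tt).toNat, Int.toNat_of_nonneg (hgt_nonneg tt)⟩
  have hone : (1 : MvPolynomial (Fin (n + 1)) F) ∉ p := fun h =>
    hpp.ne_top ((Ideal.eq_top_iff_one _).2 h)
  have hQprod : ∏ j, Q j ∉ p := by
    rw [Ideal.IsPrime.prod_mem_iff (hp := hpp)]
    rintro ⟨j, -, hj⟩
    exact hQp j hj
  have key : ∀ i : {G : MvPolynomial (Fin (n + 1)) F // (∃ d, G.IsHomogeneous d) ∧ G ∉ p} × ℕ,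
      ∃ (L : Type) (_ : Field L) (_ : Algebra k L) (_ : Algebra F L) (_ : IsScalarTower k F L)
      (_ : FiniteDimensional F L) (f : Fin (n + 1) → L), (∀ H ∈ p, aeval f H = 0) ∧
      aeval f i.1.1 ≠ 0 ∧ f j0 ≠ 0 ∧ (∀ j, aeval f (Q j) ≠ 0) ∧
      (i.2 : ℤ) * (max (canDeg k L + (meetsAny (k := k) Q q f).ncard) 0 +
        Module.finrank F L) < pht k f := by
    rintro ⟨⟨G, ⟨d, hd⟩, hG⟩, B⟩
    obtain ⟨L, i1, i2, i3, i4, i5, f, hf, hfG, hht⟩ := hcon (d + 1 + ∑ j, q j)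
      (G * X j0 * ∏ j, Q j)
      ((hd.mul (isHomogeneous_X F j0)).mul (IsHomogeneous.prod _ _ _ fun j _ => hQhom j))
      (fun h => by
        rcases hpp.mem_or_mem h with h | h
        · rcases hpp.mem_or_mem h with h | h
          · exact hG h
          · exact hj0 h
        · exact hQprod h)
      (fun j => Dvd.dvd.mul_left (Finset.dvd_prod_of_mem _ (Finset.mem_univ j)) _)
      B (B * (2 * h0 + 1))
    have hL : IsFF k L := isFF_of_finite (F := F)
    rw [map_mul, map_mul, map_prod, aeval_X] at hfG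
    refine ⟨L, i1, i2, i3, i4, i5, f, hf, left_ne_zero_of_mul (left_ne_zero_of_mul hfG),
      right_ne_zero_of_mul (left_ne_zero_of_mul hfG), fun j =>
        Finset.prod_ne_zero_iff.1 (right_ne_zero_of_mul hfG) j (Finset.mem_univ j),
      lt_of_le_of_lt ?_ hht⟩
    have h1 := canDeg_ge (k := k) (K := L) (t := algebraMap F L tt)
      ((transcendental_algebraMap_iff (algebraMap F L).injective).2 htt)
    rw [hgt_algebraMap (k := k), ← hh0] at h1
    have h2 : (0 : ℤ) ≤ (meetsAny (k := k) Q q f).ncard := by positivity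
    have h3 : max (canDeg k L + ((meetsAny (k := k) Q q f).ncard : ℤ)) 0 ≤
        canDeg k L + (meetsAny (k := k) Q q f).ncard + 2 * h0 * Module.finrank F L := by
      apply max_le
      · have : (0 : ℤ) ≤ 2 * h0 * Module.finrank F L := by positivity
        linarith
      · linarith
    have h4 : (0 : ℤ) ≤ B := by positivity
    have h5 := mul_le_mul_of_nonneg_left (add_le_add_left h3 (Module.finrank F L : ℤ)) h4
    refine h5.trans (le_of_eq ?_)
    push_cast
    ring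
  choose L i1 i2 i3 i4 i5 f hfp hfG hfj hfQ hht using key
  have i6 : ∀ i, IsFF k (L i) := fun i => isFF_of_finite (F := F)
  -- the ultrafilter
  let Idx := {G : MvPolynomial (Fin (n + 1)) F // (∃ d, G.IsHomogeneous d) ∧ G ∉ p} × ℕ
  let U : Idx → Set Idx := fun g => {i | g.1.1 ∣ i.1.1 ∧ g.2 ≤ i.2}
  have hdir : Directed (· ≥ ·) fun g : Idx => (𝓟 (U g) : Filter Idx) := by
    rintro ⟨⟨G, ⟨d, hd⟩, hG⟩, B⟩ ⟨⟨G', ⟨d', hd'⟩, hG'⟩, B'⟩
    refine ⟨(⟨G * G', ⟨d + d', hd.mul hd'⟩, fun h => ?_⟩, max B B'), ?_, ?_⟩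
    · rcases hpp.mem_or_mem h with h | h
      · exact hG h
      · exact hG' h
    · refine principal_mono.2 fun i hi => ?_
      exact ⟨(dvd_mul_right G G').trans hi.1, (le_max_left B B').trans hi.2⟩
    · refine principal_mono.2 fun i hi => ?_
      exact ⟨(dvd_mul_left G' G).trans hi.1, (le_max_right B B').trans hi.2⟩
  let one : {G : MvPolynomial (Fin (n + 1)) F // (∃ d, G.IsHomogeneous d) ∧ G ∉ p} :=
    ⟨1, ⟨0, isHomogeneous_one _ _⟩, hone⟩
  have hneI : Nonempty Idx := ⟨(one, 0)⟩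
  have hne : NeBot (⨅ g : Idx, (𝓟 (U g) : Filter Idx)) := iInf_neBot_of_directed hdir
    fun g => principal_neBot_iff.2 ⟨g, dvd_rfl, le_rfl⟩
  obtain ⟨𝒰, h𝒰⟩ : ∃ 𝒰 : Ultrafilter Idx, (𝒰 : Filter Idx) ≤ ⨅ g : Idx, 𝓟 (U g) :=
    ⟨Ultrafilter.of _, Ultrafilter.of_le _⟩
  have hU : ∀ g, ∀ᶠ i in (𝒰 : Filter Idx), i ∈ U g := fun g =>
    h𝒰 (mem_iInf_of_mem g (mem_principal_self _))
  -- the small field
  obtain ⟨χ, hχd⟩ : ∃ χ : Idx → ℤ, χ = fun i =>
    max (canDeg k (L i) + (meetsAny (k := k) Q q (f i)).ncard) 0 + Module.finrank F (L i) :=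
    ⟨_, rfl⟩
  have hχ : ∀ i, 0 ≤ χ i := fun i => by
    rw [hχd]
    exact add_nonneg (le_max_right _ _) (by positivity)
  have hχ1 : ∀ i, (Module.finrank F (L i) : ℤ) ≤ χ i := fun i => by
    rw [hχd]
    exact le_add_of_nonneg_left (le_max_right _ _)
  have hχ2 : ∀ i, max (canDeg k (L i) + (meetsAny (k := k) Q q (f i)).ncard) 0 ≤ χ i :=
    fun i => by
      rw [hχd]
      exact le_add_of_nonneg_right (by positivity)
  have hFc : ∀ c : F, ∃ B : ℕ, ∀ i, hgt k (algebraMap F (L i) c) ≤ B * χ i := by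
    intro c
    refine ⟨(hgt k c).toNat, fun i => ?_⟩
    rw [hgt_algebraMap (k := k), Int.toNat_of_nonneg (hgt_nonneg c), mul_comm]
    exact mul_le_mul_of_nonneg_left (hχ1 i) (hgt_nonneg c)
  obtain ⟨E, hE⟩ : ∃ E : IntermediateField F (UL 𝒰 L), IsSmall 𝒰 k χ E :=
    ⟨small 𝒰 χ hχ hFc, hχ, fun a => mem_small 𝒰⟩
  have hS0 : ∀ᶠ i in (𝒰 : Filter Idx), max (canDeg k (L i) +
      ((meetsAny_finite (k := k) Q q ⟨j0, hfj i⟩).toFinset.card : ℤ)) 0 ≤ (1 : ℕ) * χ i := by
    refine Eventually.of_forall fun i => ?_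
    rw [← Set.ncard_eq_toFinset_card _ (meetsAny_finite (k := k) Q q ⟨j0, hfj i⟩), Nat.cast_one,
      one_mul]
    exact hχ2 i
  obtain ⟨S, B1, hS, hB1⟩ := more_places
    (fun i => (meetsAny_finite (k := k) Q q ⟨j0, hfj i⟩).toFinset) hE hS0
    (J := Σ j : κ, {α // α ∈ (Q j).support})
    (fun a i => algebraMap F (L i) ((Q a.1).coeff a.2.1))
    (fun a => by rw [um_alg]; exact E.algebraMap_mem _)
  have hQS : ∀ j i, ∀ P ∉ S i, P.ord (val (f i) (Q j)) = q j * pord P (f i) := by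
    intro j i P hP
    obtain ⟨h1, h2⟩ := hS i P hP
    rw [Set.Finite.mem_toFinset] at h1
    apply le_antisymm
    · by_contra h3
      exact h1 ⟨j, not_le.1 h3⟩
    · have h3 := ge_form P (f i) (hQhom j) (fun α hα =>
        Or.inr (h2 ⟨j, α, hα⟩).ge)
      exact h3.resolve_left (hfQ i j)
  -- the generic point
  have hval : ∀ H : MvPolynomial (Fin (n + 1)) F,
      um 𝒰 (fun i => val (f i) H) = val (fun t => um 𝒰 (fun i => f i t)) H :=
    fun H => um_val H fun t i => f i t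
  have hgen0 : ∀ H ∈ p, aeval (fun t => um 𝒰 (fun i => f i t)) H = 0 := by
    intro H hH
    have h1 := hval H
    change _ = aeval _ H at h1
    rw [← h1, um_zero_iff]
    exact Eventually.of_forall fun i => hfp i H hH
  have hgen1 : ∀ d H, H.IsHomogeneous d → H ∉ p →
      aeval (fun t => um 𝒰 (fun i => f i t)) H ≠ 0 := by
    intro d H hd hH
    have h1 := hval H
    change _ = aeval _ H at h1
    rw [← h1, um_ne_iff]
    filter_upwards [hU (⟨H, ⟨d, hd⟩, hH⟩, 0)] with i hi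
    obtain ⟨G', hG'⟩ := hi.1
    have h2 := hfG i
    change aeval (f i) i.1.1 ≠ 0 at h2
    rw [hG', map_mul] at h2
    exact left_ne_zero_of_mul h2
  have ht0 : um 𝒰 (fun i => f i j0) ≠ 0 := um_ne_iff.2 (Eventually.of_forall fun i => hfj i)
  -- a ratio which is not small
  obtain ⟨t, ht⟩ : ∃ t, um 𝒰 (fun i => f i t) / um 𝒰 (fun i => f i j0) ∉ E := by
    by_contra hcon
    push Not at hcon
    have h1 : ∀ t, ∃ B : ℕ, ∀ᶠ i in (𝒰 : Filter Idx), hgt k (f i t / f i j0) ≤ B * χ i := by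
      intro t
      have h2 := hcon t
      rw [← um_div] at h2
      exact (hE.2 _).1 h2
    choose B hB using h1
    obtain ⟨i, hi1, hi3⟩ := ((eventually_all.2 hB).and (hU (one, ∑ t, B t))).exists
    have h4 := pht_le (k := k) (f i) (hfj i)
    have h5 : ∑ j, hgt k (f i j / f i j0) ≤ ∑ j, (B j : ℤ) * χ i :=
      Finset.sum_le_sum fun j _ => hi1 j
    rw [← Finset.sum_mul] at h5
    have h6 : ((∑ t, B t : ℕ) : ℤ) ≤ i.2 := by exact_mod_cast hi3.2
    push_cast at h6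
    have h7 := mul_le_mul_of_nonneg_right h6 (hχ i)
    have h8 := hht i
    have h9 : χ i = max (canDeg k (L i) + (meetsAny (k := k) Q q (f i)).ncard) 0 +
        Module.finrank F (L i) := by rw [hχd]
    rw [← h9] at h8
    linarith
  have htn : um 𝒰 (fun i => f i t) ≠ 0 := by
    intro h0
    apply ht
    rw [h0, zero_div]
    exact zero_mem _
  have hK : Infinite (UL 𝒰 L) := by
    have hcF : CharZero F := charZero_of_injective_algebraMap (algebraMap k F).injective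
    have h1 : CharZero (UL 𝒰 L) :=
      charZero_of_injective_algebraMap (algebraMap F (UL 𝒰 L)).injective
    infer_instance
  obtain ⟨b, c, hb, hbt⟩ := orbit_of_pair (dsys S hE hB1) (fun e => (hF e).2)
    (fun e => (hF e).1) hQ (y := fun t => um 𝒰 (fun i => f i t))
    (fun e => hgen0 _ (hFp e)) (fun j => hgen1 _ _ (hQhom j) (hQp j)) (fun j => by
      refine ⟨fun i => val (f i) (Q j), fun _ => ∅, 0, hval (Q j),
        Eventually.of_forall fun i => by simp, Eventually.of_forall fun i P hP _ _ => ?_⟩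
      rw [hQS j i P hP]
      exact dvd_mul_right _ _) htn ht0 ht
  apply hline
  exact ⟨UL 𝒰 L, inferInstance, inferInstance, _, b, c, hgen0, hgen1, ⟨t, j0, htn, ht0, hb⟩,
    fun s hs => ⟨fun i => (hbt s hs).1 i, fun j => (hbt s hs).2 j⟩⟩

end Pool.Agent.X333.MV
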